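import Pool.Agent.Helper566.JSys

open Polynomial MeasureTheory

namespace Pool.Agent.Results.MP_e056c9_an.Hyperbolic

/-- The Julia set of a complex polynomial: the boundary of the set of points with bounded forward orbit. -/
def juliaSet (f : ℂ[X]) : Set ℂ :=
  frontier {z : ℂ | Bornology.IsBounded (Set.range (fun n : ℕ => (fun w : ℂ => f.eval w)^[n] z))}

/-- The energy integral of a measure on the line with kernel `log (R / |x - y|)`, which is
infinite on the diagonal. -/
noncomputable def energy (R : ℝ) (μ : Measure ℝ) : ENNReal :=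
  ∫⁻ x, ∫⁻ y, (if x = y then (⊤ : ENNReal) else ENNReal.ofReal (Real.log (R / |x - y|))) ∂μ ∂μ

/-- `μ` is a probability measure carried by the real set `J` which minimises the logarithmic energy
among all such measures. -/
def IsEquilibriumMeasure (J : Set ℂ) (μ : Measure ℝ) : Prop :=
  IsProbabilityMeasure μ ∧ μ {x : ℝ | (x : ℂ) ∉ J} = 0 ∧
    ∀ ν : Measure ℝ, IsProbabilityMeasure ν → ν {x : ℝ | (x : ℂ) ∉ J} = 0 →
      energy (Metric.diam J + 1) μ ≤ energy (Metric.diam J + 1) ν

/-- The monic orthogonal polynomials of `μ`. -/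
def IsMonicOrthogonal (μ : Measure ℝ) (P : ℕ → ℝ[X]) : Prop :=
  ∀ n : ℕ, (P n).Monic ∧ (P n).natDegree = n ∧ ∀ k : ℕ, k < n → ∫ x, (P n).eval x * x ^ k ∂μ = 0

/-- Diagonal recurrence coefficient `b_{n+1}` of the monic orthogonal polynomials. -/
noncomputable def jacobiB (μ : Measure ℝ) (P : ℕ → ℝ[X]) (n : ℕ) : ℝ :=
  (∫ x, x * (P n).eval x ^ 2 ∂μ) / (∫ x, (P n).eval x ^ 2 ∂μ)

/-- Off-diagonal recurrence coefficient `a_{n+1}`, the square root of a quotient of squared norms. -/
noncomputable def jacobiA (μ : Measure ℝ) (P : ℕ → ℝ[X]) (n : ℕ) : ℝ :=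
  Real.sqrt ((∫ x, (P (n + 1)).eval x ^ 2 ∂μ) / (∫ x, (P n).eval x ^ 2 ∂μ))

/-- A one-sided sequence is limit periodic: it is a uniform limit of periodic sequences. -/
def IsLimitPeriodic (u : ℕ → ℝ) : Prop :=
  ∀ ε : ℝ, 0 < ε → ∃ D : ℕ, 0 < D ∧ ∃ v : ℕ → ℝ, (∀ n, v (n + D) = v n) ∧ ∀ n, |u n - v n| ≤ ε

/-- Limit periodicity of the recurrence coefficients for every polynomial whose Julia set is real and
contains no critical point. -/
theorem result (f : ℂ[X]) (hf : 2 ≤ f.natDegree) (hreal : juliaSet f ⊆ Set.range ((↑) : ℝ → ℂ))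
    (hcrit : ∀ z ∈ juliaSet f, (derivative f).eval z ≠ 0)
    (μ : Measure ℝ) (hμ : IsEquilibriumMeasure (juliaSet f) μ)
    (P : ℕ → ℝ[X]) (hP : IsMonicOrthogonal μ P) :
    IsLimitPeriodic (jacobiA μ P) ∧ IsLimitPeriodic (jacobiB μ P) := by
  obtain ⟨F, a, b, K, L, hfF, hK, S, O, hbal, hL⟩ := Helper566.J.extract f hf (juliaSet f) rfl hreal μ hμ.1 hμ.2.1
    hμ.2.2 P hP
  obtain ⟨E, δ, H, h1, h2⟩ := S.toHS O hbal (by
    intro c hc hcK
    apply hcrit (c : ℂ) ((hK c).mp hcK)
    rw [hfF, derivative_map]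
    have : (c : ℂ) = Complex.ofRealHom c := rfl
    rw [this, eval_map_apply, hc, map_zero])
  have e1 : ∀ n, jacobiB μ P n = Helper566.J.OS.bb L P n := by
    intro n
    unfold jacobiB Helper566.J.OS.bb
    rw [hL, hL]
    congr 1
    · congr 1; funext x; rw [eval_mul, eval_mul, eval_X, sq]
    · congr 1; funext x; rw [eval_mul, sq]
  have e2 : ∀ n, jacobiA μ P n = Real.sqrt (Helper566.J.OS.aa L P n) := by
    intro n
    unfold jacobiA Helper566.J.OS.aa
    rw [hL, hL]
    congr 2
    · congr 1; funext x; rw [eval_mul, sq]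
    · congr 1; funext x; rw [eval_mul, sq]
  constructor
  · intro ε hε
    obtain ⟨D, hD, h3, h4⟩ := H.final h1 h2 (ε := ε ^ 2) (by positivity)
    refine ⟨D, hD, fun n => jacobiA μ P (n % D), ?_, ?_⟩
    · intro n; simp
    · intro n
      simp only
      rw [e2, e2]
      have h5 := h3 n (n % D) (Nat.mod_modEq n D).symm
      have h6 := abs_le.mp h5
      have hp := O.aa_pos n
      have hq := O.aa_pos (n % D)
      have s1 := Real.sq_sqrt hp.le
      have s2 := Real.sq_sqrt hq.le
      have p1 := Real.sqrt_nonneg (Helper566.J.OS.aa L P n)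
      have p2 := Real.sqrt_nonneg (Helper566.J.OS.aa L P (n % D))
      rw [abs_le]
      constructor
      · by_contra hcon
        push Not at hcon
        nlinarith
      · by_contra hcon
        push Not at hcon
        nlinarith
  · intro ε hε
    obtain ⟨D, hD, h3, h4⟩ := H.final h1 h2 hε
    refine ⟨D, hD, fun n => jacobiB μ P (n % D), ?_, ?_⟩
    · intro n; simp
    · intro n
      simp only
      rw [e1, e1]
      exact h4 n (n % D) (Nat.mod_modEq n D).symm

end Pool.Agent.Results.MP_e056c9_an.Hyperbolic
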